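import Mathlib

/-!
# The inverse of `z ↦ -(z + 1/z)` on the upper half disc, and the Noshiro–Warschawski criterion
-/

namespace Pool.Agent.H14.KP

open Complex Set Filter Topology
open scoped ComplexConjugate

/-- `y(w) = sqrt ((w-2)/(w+2))` -/
noncomputable def yy (w : ℂ) : ℂ := ((w - 2) / (w + 2)) ^ (2⁻¹ : ℂ)

/-- the inverse of `z ↦ -(z+1/z)` -/
noncomputable def zz (w : ℂ) : ℂ := (yy w - 1) / (yy w + 1)

theorem add_two_ne {w : ℂ} (hw : 0 < w.im) : w + 2 ≠ 0 := by
  intro h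
  have := congrArg Complex.im h
  simp at this
  linarith

theorem quot_im {w : ℂ} (hw : 0 < w.im) : 0 < ((w - 2) / (w + 2)).im := by
  have h := add_two_ne hw
  have hn : 0 < Complex.normSq (w + 2) := Complex.normSq_pos.mpr h
  rw [Complex.div_im, ← sub_div]
  apply div_pos _ hn
  simp only [sub_im, add_im, sub_re, add_re, Complex.re_ofNat, Complex.im_ofNat]
  nlinarith

theorem quot_slit {w : ℂ} (hw : 0 < w.im) : (w - 2) / (w + 2) ∈ Complex.slitPlane :=
  Or.inr (quot_im hw).ne'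

theorem yy_sq (w : ℂ) : yy w ^ 2 = (w - 2) / (w + 2) := by
  unfold yy
  exact Complex.cpow_ofNat_inv_pow _ 2

theorem sqrt_re_pos {u : ℂ} (hu : u ∈ Complex.slitPlane) : 0 < (u ^ (2⁻¹ : ℂ)).re := by
  have h0 : u ≠ 0 := Complex.slitPlane_ne_zero hu
  rw [Complex.cpow_def_of_ne_zero h0, Complex.exp_re]
  apply mul_pos (Real.exp_pos _)
  have him : (Complex.log u * 2⁻¹).im = Complex.arg u / 2 := by
    have : (Complex.log u * 2⁻¹) = Complex.log u / ((2 : ℝ) : ℂ) := by
      push_cast; rw [div_eq_mul_inv]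
    rw [this, Complex.div_ofReal_im, Complex.log_im]
  rw [him]
  have h1 := Complex.neg_pi_lt_arg u
  have h2 := Complex.arg_le_pi u
  have h3 : Complex.arg u ≠ Real.pi := (Complex.mem_slitPlane_iff_arg.1 hu).1
  have h4 : Complex.arg u < Real.pi := lt_of_le_of_ne h2 h3
  exact Real.cos_pos_of_mem_Ioo ⟨by linarith, by linarith⟩

theorem yy_re {w : ℂ} (hw : 0 < w.im) : 0 < (yy w).re := sqrt_re_pos (quot_slit hw)

theorem yy_add_ne {w : ℂ} (hw : 0 < w.im) : yy w + 1 ≠ 0 := by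
  intro h
  have := congrArg Complex.re h
  simp at this
  linarith [yy_re hw]

theorem yy_ne_one {w : ℂ} (hw : 0 < w.im) : yy w - 1 ≠ 0 := by
  intro h
  have h1 : yy w = 1 := sub_eq_zero.1 h
  have h2 := yy_sq w
  rw [h1] at h2
  have h3 := quot_im hw
  rw [← h2] at h3
  simp at h3

theorem zz_ne {w : ℂ} (hw : 0 < w.im) : zz w ≠ 0 :=
  div_ne_zero (yy_ne_one hw) (yy_add_ne hw)

theorem zz_norm {w : ℂ} (hw : 0 < w.im) : ‖zz w‖ < 1 := by
  unfold zz
  rw [norm_div, div_lt_one (norm_pos_iff.2 (yy_add_ne hw))]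
  rw [← sq_lt_sq₀ (norm_nonneg _) (norm_nonneg _), ← Complex.normSq_eq_norm_sq,
    ← Complex.normSq_eq_norm_sq, Complex.normSq_apply, Complex.normSq_apply]
  simp only [sub_re, one_re, sub_im, one_im, add_re, add_im]
  nlinarith [yy_re hw]

theorem zz_eq {w : ℂ} (hw : 0 < w.im) : -(zz w + (zz w)⁻¹) = w := by
  have h1 := yy_ne_one hw
  have h2 := yy_add_ne hw
  have h3 := add_two_ne hw
  have h4 := yy_sq w
  have h5 : yy w ^ 2 * (w + 2) = w - 2 := by rw [h4]; field_simp
  unfold zz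
  rw [inv_div]
  field_simp
  linear_combination -h5

theorem zz_inv {z : ℂ} (hz : ‖z‖ < 1) (hz0 : z ≠ 0) : zz (-(z + z⁻¹)) = z := by
  have h1 : 1 - z ≠ 0 := by
    intro h
    have : z = 1 := (sub_eq_zero.1 h).symm
    rw [this] at hz
    simp at hz
  have h2 : (-(z + z⁻¹) - 2) / (-(z + z⁻¹) + 2) = ((1 + z) / (1 - z)) ^ 2 := by
    have e1 : -(z + z⁻¹) - 2 = -(1 + z) ^ 2 / z := by field_simp; ring
    have e2 : -(z + z⁻¹) + 2 = -(1 - z) ^ 2 / z := by field_simp; ring
    rw [e1, e2]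
    field_simp
  have hre : 0 < ((1 + z) / (1 - z)).re := by
    have hn : 0 < Complex.normSq (1 - z) := Complex.normSq_pos.mpr h1
    have hz2 : z.re ^ 2 + z.im ^ 2 < 1 := by
      have : ‖z‖ ^ 2 < 1 := by nlinarith [norm_nonneg z]
      rw [← Complex.normSq_eq_norm_sq, Complex.normSq_apply] at this
      nlinarith
    rw [Complex.div_re, ← add_div]
    apply div_pos _ hn
    simp only [add_re, one_re, sub_re, add_im, one_im, sub_im]
    nlinarith
  have h3 : yy (-(z + z⁻¹)) = (1 + z) / (1 - z) := by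
    unfold yy
    rw [h2]
    exact Complex.sq_cpow_two_inv hre
  unfold zz
  rw [h3]
  field_simp
  ring

theorem chi_im {z : ℂ} (hz : ‖z‖ < 1) (him : 0 < z.im) : 0 < (-(z + z⁻¹)).im := by
  have hz0 : z ≠ 0 := by
    intro h; rw [h] at him; simp at him
  have hn : 0 < Complex.normSq z := Complex.normSq_pos.mpr hz0
  have hn1 : Complex.normSq z < 1 := by
    rw [Complex.normSq_eq_norm_sq]; nlinarith [norm_nonneg z]
  rw [neg_im, add_im, inv_im]
  have : -(z.im + -z.im / Complex.normSq z) = z.im * (1 / Complex.normSq z - 1) := by ring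
  rw [this]
  apply mul_pos him
  rw [sub_pos, lt_div_iff₀ hn]
  linarith

theorem differentiableAt_zz {w : ℂ} (hw : 0 < w.im) : DifferentiableAt ℂ zz w := by
  have h1 : DifferentiableAt ℂ (fun w : ℂ => (w - 2) / (w + 2)) w :=
    (differentiableAt_id.sub_const 2).div (differentiableAt_id.add_const 2) (add_two_ne hw)
  have h2 : DifferentiableAt ℂ yy w := h1.cpow_const (quot_slit hw)
  exact (h2.sub_const 1).div (h2.add_const 1) (yy_add_ne hw)

/-- the derivative of the inverse map -/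
theorem deriv_zz {w : ℂ} (hw : 0 < w.im) (h1 : 1 - zz w ^ 2 ≠ 0) :
    HasDerivAt zz (zz w ^ 2 / (1 - zz w ^ 2)) w := by
  have hd := (differentiableAt_zz hw).hasDerivAt
  have h0 := zz_ne hw
  have h2 : HasDerivAt (fun u => -(zz u + (zz u)⁻¹)) (-(deriv zz w + -deriv zz w / zz w ^ 2)) w :=
    (hd.add (hd.inv h0)).neg
  have h3 : (fun u : ℂ => -(zz u + (zz u)⁻¹)) =ᶠ[𝓝 w] fun u => u := by
    have : {u : ℂ | 0 < u.im} ∈ 𝓝 w := (isOpen_lt continuous_const Complex.continuous_im).mem_nhds hw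
    filter_upwards [this] with u hu
    exact zz_eq hu
  have h4 := (h2.congr_of_eventuallyEq h3.symm).unique (hasDerivAt_id w)
  have h5 : deriv zz w = zz w ^ 2 / (1 - zz w ^ 2) := by
    rw [eq_div_iff h1]
    field_simp at h4
    linear_combination h4
  rw [← h5]
  exact hd

/-- Noshiro–Warschawski on the upper half plane, along a segment. -/
theorem noshiro {G G' : ℂ → ℂ} (hG : ∀ w : ℂ, 0 < w.im → HasDerivAt G (G' w) w)
    (hpos : ∀ w : ℂ, 0 < w.im → 0 < (G' w).re) {w1 w2 : ℂ} (h1 : 0 < w1.im) (h2 : 0 < w2.im)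
    (hne : w1 ≠ w2) : G w1 ≠ G w2 := by
  intro heq
  have hd : w2 - w1 ≠ 0 := sub_ne_zero.2 hne.symm
  set σ : ℝ → ℂ := fun s => w1 + (s : ℂ) * (w2 - w1) with hσ
  have hσim : ∀ s ∈ Icc (0 : ℝ) 1, 0 < (σ s).im := by
    intro s hs
    simp only [hσ, add_im, mul_im, ofReal_re, ofReal_im, sub_im, zero_mul, add_zero]
    have h3 : w1.im + s * (w2.im - w1.im) = (1 - s) * w1.im + s * w2.im := by ring
    rw [h3]
    rcases hs.1.eq_or_lt with h | h
    · rw [← h]; simpa using h1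
    · have : 0 ≤ (1 - s) * w1.im := mul_nonneg (by linarith [hs.2]) h1.le
      nlinarith [mul_pos h h2]
  have hσd : ∀ s : ℝ, HasDerivAt σ (w2 - w1) s := by
    intro s
    have h3 : HasDerivAt (fun s : ℝ => (s : ℂ)) 1 s := Complex.ofRealCLM.hasDerivAt
    have h4 := (h3.mul_const (w2 - w1)).const_add w1
    rw [one_mul] at h4
    exact h4
  set g : ℝ → ℝ := fun s => (G (σ s) / (w2 - w1)).re with hg
  have hgd : ∀ s ∈ Icc (0 : ℝ) 1, HasDerivAt g (G' (σ s)).re s := by
    intro s hs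
    have h3 : HasDerivAt (fun s : ℝ => G (σ s)) (G' (σ s) * (w2 - w1)) s :=
      (hG _ (hσim s hs)).comp s (hσd s)
    have h4 := h3.div_const (w2 - w1)
    rw [mul_div_assoc, div_self hd, mul_one] at h4
    exact (Complex.reCLM.hasFDerivAt.comp_hasDerivAt s h4)
  have hmono : StrictMonoOn g (Icc 0 1) := by
    apply strictMonoOn_of_deriv_pos (convex_Icc 0 1)
    · intro s hs
      exact (hgd s hs).continuousAt.continuousWithinAt
    · intro s hs
      rw [interior_Icc] at hs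
      have hs' : s ∈ Icc (0 : ℝ) 1 := Ioo_subset_Icc_self hs
      rw [(hgd s hs').deriv]
      exact hpos _ (hσim s hs')
  have h3 := hmono (left_mem_Icc.2 zero_le_one) (right_mem_Icc.2 zero_le_one) zero_lt_one
  simp only [hg, hσ] at h3
  simp [heq] at h3

end Pool.Agent.H14.KP
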