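import Mathlib
import Pool.Agent.H85.KP.Iface
import Pool.Agent.H14.KP.Chi

/-!
# Module M10 of MP_6cc408_an, part 1 (by helper14)
-/

namespace Pool.Agent.H14.KP

open Polynomial Complex Set Filter Topology
open Pool.Agent.H85.KP
open scoped ComplexConjugate

theorem ev_conj (p : ℝ[X]) (z : ℂ) : ev p (conj z) = conj (ev p z) := aeval_conj p z

theorem ev_real (p : ℝ[X]) (x : ℝ) : ev p (x : ℂ) = ((p.eval x : ℝ) : ℂ) := by
  unfold ev
  exact Polynomial.aeval_algebraMap_apply_eq_algebraMap_eval x p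

theorem hasDerivAt_ev (p : ℝ[X]) (z : ℂ) : HasDerivAt (ev p) (ev (derivative p) z) z :=
  p.hasDerivAt_aeval z

theorem continuous_ev (p : ℝ[X]) : Continuous (ev p) := p.continuous_aeval

theorem differentiable_ev (p : ℝ[X]) : Differentiable ℂ (ev p) := fun z =>
  (hasDerivAt_ev p z).differentiableAt

theorem ev_add (p q : ℝ[X]) (z : ℂ) : ev (p + q) z = ev p z + ev q z := by simp [ev]
theorem ev_sub (p q : ℝ[X]) (z : ℂ) : ev (p - q) z = ev p z - ev q z := by simp [ev]
theorem ev_mul (p q : ℝ[X]) (z : ℂ) : ev (p * q) z = ev p z * ev q z := by simp [ev]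
theorem ev_pow (p : ℝ[X]) (n : ℕ) (z : ℂ) : ev (p ^ n) z = ev p z ^ n := by simp [ev]
theorem ev_X (z : ℂ) : ev X z = z := by simp [ev]
theorem ev_C (a : ℝ) (z : ℂ) : ev (C a) z = a := by simp [ev]
theorem ev_one (z : ℂ) : ev 1 z = 1 := by simp [ev]

theorem eq_pt {z : ℂ} (hz : ‖z‖ = 1) (him : 0 < z.im) : ∃ t ∈ Ioo (0 : ℝ) Real.pi, z = pt t := by
  refine ⟨Complex.arg z, ?_, ?_⟩
  · have hs : Real.sin (Complex.arg z) = z.im := by
      rw [Complex.sin_arg, hz, div_one]
    have h1 := Complex.neg_pi_lt_arg z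
    have h2 := Complex.arg_le_pi z
    constructor
    · by_contra h
      rw [not_lt] at h
      have := Real.sin_nonpos_of_nonpos_of_neg_pi_le h h1.le
      linarith
    · rcases h2.lt_or_eq with h | h
      · exact h
      · rw [h, Real.sin_pi] at hs
        linarith
  · have := Complex.norm_mul_exp_arg_mul_I z
    rw [hz, ofReal_one, one_mul] at this
    exact this.symm

/-- the upper half disc -/
def Dp : Set ℂ := Metric.ball (0 : ℂ) 1 ∩ {z | 0 < z.im}

theorem isOpen_Dp : IsOpen Dp :=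
  Metric.isOpen_ball.inter (isOpen_lt continuous_const Complex.continuous_im)

theorem convex_Dp : Convex ℝ Dp :=
  (convex_ball _ _).inter (convex_halfSpace_im_gt 0)

theorem frontier_Dp {z : ℂ} (hz : z ∈ frontier Dp) :
    (‖z‖ = 1 ∧ 0 < z.im) ∨ z.im = 0 := by
  rw [isOpen_Dp.frontier_eq] at hz
  obtain ⟨h1, h2⟩ := hz
  have h3 : z ∈ Metric.closedBall (0 : ℂ) 1 ∩ {z | 0 ≤ z.im} := by
    refine closure_minimal ?_ (Metric.isClosed_closedBall.inter
      (isClosed_le continuous_const Complex.continuous_im)) h1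
    rintro w ⟨hw1, hw2⟩
    have hw2' : 0 < w.im := hw2
    exact ⟨Metric.ball_subset_closedBall hw1, hw2'.le⟩
  obtain ⟨h4, h5⟩ := h3
  rw [mem_closedBall_zero_iff] at h4
  have h5' : 0 ≤ z.im := h5
  rcases h5'.eq_or_lt with h | h
  · right; exact h.symm
  · left
    refine ⟨le_antisymm h4 ?_, h⟩
    by_contra hlt
    rw [not_le] at hlt
    exact h2 ⟨mem_ball_zero_iff.2 hlt, h⟩

theorem zero_mem_closure_Dp : (0 : ℂ) ∈ closure Dp := by
  rw [Metric.mem_closure_iff]
  intro ε hε
  set δ := min (ε / 2) (1 / 2) with hδ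
  have hδ0 : 0 < δ := lt_min (by linarith) (by norm_num)
  have hδ1 : δ < ε := lt_of_le_of_lt (min_le_left _ _) (by linarith)
  have hδ2 : δ < 1 := lt_of_le_of_lt (min_le_right _ _) (by norm_num)
  refine ⟨(δ : ℂ) * I, ⟨?_, ?_⟩, ?_⟩
  · rw [mem_ball_zero_iff, norm_mul, Complex.norm_I, mul_one, Complex.norm_real,
      Real.norm_eq_abs, abs_of_pos hδ0]
    exact hδ2
  · show 0 < ((δ : ℂ) * I).im
    simp [hδ0]
  · rw [dist_comm, dist_zero_right, norm_mul, Complex.norm_I, mul_one, Complex.norm_real,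
      Real.norm_eq_abs, abs_of_pos hδ0]
    exact hδ1

section

variable {p : ℝ[X]} (h0 : p.coeff 0 = 0) (h1 : p.coeff 1 = 1) (hTR : TR p)

include h1 in
theorem ev_deriv_zero : ev (derivative p) 0 = 1 := by
  have := ev_real (derivative p) 0
  rw [ofReal_zero] at this
  rw [this, ← Polynomial.coeff_zero_eq_eval_zero, Polynomial.coeff_derivative]
  simp [h1]

include hTR in
theorem im_nonneg_closure {z : ℂ} (hz : z ∈ closure Dp) : 0 ≤ (ev p z).im := by
  have hdiff : Differentiable ℂ (fun z => Complex.exp (I * ev p z)) :=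
    ((differentiable_ev p).const_mul I).cexp
  have hn : ∀ z, ‖Complex.exp (I * ev p z)‖ = Real.exp (-(ev p z).im) := by
    intro z
    rw [Complex.norm_exp]
    simp
  have hb : Bornology.IsBounded Dp := Metric.isBounded_ball.subset inter_subset_left
  have := Complex.norm_le_of_forall_mem_frontier_norm_le (C := 1) hb
    hdiff.diffContOnCl (fun z hz => ?_) hz
  · rw [hn, Real.exp_le_one_iff] at this
    linarith
  · rw [hn, Real.exp_le_one_iff]
    have h3 : 0 ≤ (ev p z).im := by
      rcases frontier_Dp hz with ⟨h4, h5⟩ | h4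
      · obtain ⟨t, ht, rfl⟩ := eq_pt h4 h5
        exact hTR t ht
      · have : z = ((z.re : ℝ) : ℂ) := by
          apply Complex.ext <;> simp [h4]
        rw [this, ev_real, ofReal_im]
    linarith

include h1 hTR in
theorem im_pos {z : ℂ} (hz : z ∈ Dp) : 0 < (ev p z).im := by
  have ha : AnalyticOnNhd ℂ (ev p) Dp := fun w _ => (differentiable_ev p).analyticAt w
  rcases ha.is_constant_or_isOpen convex_Dp.isPreconnected with ⟨w, hw⟩ | ho
  · exfalso
    have h2 : ∀ z ∈ Dp, ev (derivative p) z = 0 := by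
      intro z hz
      have h3 : ev p =ᶠ[𝓝 z] fun _ => w := by
        filter_upwards [isOpen_Dp.mem_nhds hz] with u hu
        exact hw u hu
      exact ((hasDerivAt_ev p z).congr_of_eventuallyEq h3.symm).unique (hasDerivAt_const z w)
    have h3 : (0 : ℂ) ∈ {z | ev (derivative p) z = 0} :=
      closure_minimal h2 (isClosed_eq (continuous_ev _) continuous_const) zero_mem_closure_Dp
    have h4 : ev (derivative p) 0 = 0 := h3
    rw [ev_deriv_zero h1] at h4
    exact one_ne_zero h4
  · have h2 := ho Dp subset_rfl isOpen_Dp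
    have h3 : ev p '' Dp ⊆ {z | 0 ≤ z.im} := by
      rintro _ ⟨u, hu, rfl⟩
      exact im_nonneg_closure hTR (subset_closure hu)
    have h4 := interior_maximal h3 h2
    rw [Complex.interior_setOfPred_le_im] at h4
    exact h4 ⟨z, hz, rfl⟩

include hTR in
theorem deriv_nonneg_Ioo {x : ℝ} (hx : x ∈ Ioo (-1 : ℝ) 1) : 0 ≤ (derivative p).eval x := by
  set h : ℝ → ℝ := fun y => (ev p ((x : ℂ) + (y : ℂ) * I)).im with hh
  have hd : HasDerivAt h ((derivative p).eval x) 0 := by
    have e1 : HasDerivAt (fun y : ℝ => (x : ℂ) + (y : ℂ) * I) I 0 := by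
      have h3 : HasDerivAt (fun s : ℝ => (s : ℂ)) 1 (0 : ℝ) := Complex.ofRealCLM.hasDerivAt
      have h4 := (h3.mul_const I).const_add (x : ℂ)
      rw [one_mul] at h4
      exact h4
    have e2 := (hasDerivAt_ev p ((x : ℂ) + ((0 : ℝ) : ℂ) * I)).comp (0 : ℝ) e1
    have e3 := Complex.imCLM.hasFDerivAt.comp_hasDerivAt (0 : ℝ) e2
    have e4 : (ev (derivative p) ((x : ℂ) + ((0 : ℝ) : ℂ) * I) * I).im = (derivative p).eval x := by
      rw [ofReal_zero, zero_mul, add_zero, ev_real]
      simp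
    have e5 : HasDerivAt h ((ev (derivative p) ((x : ℂ) + ((0 : ℝ) : ℂ) * I) * I).im) 0 := e3
    rwa [e4] at e5
  have hz : h 0 = 0 := by
    simp only [hh, ofReal_zero, zero_mul, add_zero, ev_real, ofReal_im]
  have ht := hd.tendsto_slope_zero_right
  refine ge_of_tendsto ht ?_
  have h3 : ∀ᶠ y : ℝ in 𝓝[>] 0, y < 1 - |x| := by
    have : 0 < 1 - |x| := by
      rw [sub_pos, abs_lt]
      exact hx
    exact eventually_nhdsWithin_of_eventually_nhds (gt_mem_nhds this)
  filter_upwards [h3, self_mem_nhdsWithin] with y hy1 hy2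
  have hy2' : 0 < y := hy2
  rw [zero_add, hz, sub_zero, smul_eq_mul]
  apply mul_nonneg (by positivity)
  apply im_nonneg_closure hTR
  apply subset_closure
  refine ⟨?_, ?_⟩
  · rw [mem_ball_zero_iff]
    calc ‖(x : ℂ) + (y : ℂ) * I‖ ≤ ‖(x : ℂ)‖ + ‖(y : ℂ) * I‖ := norm_add_le _ _
      _ = |x| + y := by
        rw [norm_mul, Complex.norm_I, mul_one, Complex.norm_real, Complex.norm_real,
          Real.norm_eq_abs, Real.norm_eq_abs, abs_of_pos hy2']
      _ < 1 := by linarith
  · show 0 < ((x : ℂ) + (y : ℂ) * I).im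
    simp [hy2']

include hTR in
theorem deriv_nonneg_Icc {x : ℝ} (hx : x ∈ Icc (-1 : ℝ) 1) : 0 ≤ (derivative p).eval x := by
  have h2 : Icc (-1 : ℝ) 1 ⊆ {x | 0 ≤ (derivative p).eval x} := by
    rw [← closure_Ioo (by norm_num : (-1 : ℝ) ≠ 1)]
    exact closure_minimal (fun x hx => deriv_nonneg_Ioo hTR hx)
      (isClosed_le continuous_const (derivative p).continuous)
  exact h2 hx

include h1 hTR in
theorem strictMono_real : StrictMonoOn (fun x : ℝ => p.eval x) (Icc (-1) 1) := by
  have hm : MonotoneOn (fun x : ℝ => p.eval x) (Icc (-1) 1) := by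
    apply monotoneOn_of_deriv_nonneg (convex_Icc _ _) p.continuous.continuousOn
      p.differentiable.differentiableOn
    intro x hx
    rw [interior_Icc] at hx
    rw [p.deriv]
    exact deriv_nonneg_Ioo hTR hx
  intro x hx y hy hxy
  rcases (hm hx hy hxy.le).lt_or_eq with h | h
  · exact h
  · exfalso
    have h2 : ∀ u ∈ Icc x y, p.eval u = (C (p.eval x)).eval u := by
      intro u hu
      have hu' : u ∈ Icc (-1 : ℝ) 1 := ⟨hx.1.trans hu.1, hu.2.trans hy.2⟩
      rw [eval_C]
      have e1 := hm hx hu' hu.1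
      have e2 := hm hu' hy hu.2
      simp only at e1 e2 h
      linarith
    have h3 : p = C (p.eval x) := by
      apply Polynomial.eq_of_infinite_eval_eq
      exact (Icc_infinite hxy).mono h2
    have h4 : p.coeff 1 = 0 := by
      rw [h3, coeff_C]; simp
    rw [h1] at h4
    exact one_ne_zero h4

end

end Pool.Agent.H14.KP
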