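import Mathlib
import Pool.Agent.H14.KP.M10Basic

/-!
# Module M10 of MP_6cc408_an: the univalence criterion `TargetU3` (by helper14)
-/

namespace Pool.Agent.H14.KP

open Polynomial Complex Set Filter Topology
open Pool.Agent.H85.KP
open scoped ComplexConjugate

section

variable {p : ℝ[X]} (h0 : p.coeff 0 = 0) (h1 : p.coeff 1 = 1) (hTR : TR p)

include h0 in
theorem ev_eq (z : ℂ) : ev p z = z * ev (divX p) z := by
  have h := Polynomial.divX_mul_X_add p
  rw [h0, C_0, add_zero] at h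
  conv_lhs => rw [← h]
  rw [ev_mul, ev_X, mul_comm]

include h1 in
theorem ev_divX_zero : ev (divX p) 0 = 1 := by
  have := ev_real (divX p) 0
  rw [ofReal_zero] at this
  rw [this, ← Polynomial.coeff_zero_eq_eval_zero, Polynomial.coeff_divX]
  simp [h1]

include h0 h1 hTR in
theorem divX_ne (hne : ∀ t ∈ Ioo (0 : ℝ) Real.pi, ev p (pt t) ≠ 0) {z : ℂ} (hz : ‖z‖ ≤ 1) :
    ev (divX p) z ≠ 0 := by
  intro h
  have hz0 : z ≠ 0 := by
    intro hz0
    rw [hz0, ev_divX_zero h1] at h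
    exact one_ne_zero h
  have hp : ev p z = 0 := by rw [ev_eq h0, h, mul_zero]
  -- the case of positive imaginary part
  have key : ∀ w : ℂ, ‖w‖ ≤ 1 → 0 < w.im → ev p w ≠ 0 := by
    intro w hw him hw0
    rcases hw.lt_or_eq with h2 | h2
    · have := im_pos h1 hTR (z := w) ⟨mem_ball_zero_iff.2 h2, him⟩
      rw [hw0] at this
      simp at this
    · obtain ⟨t, ht, rfl⟩ := eq_pt h2 him
      exact hne t ht hw0
  rcases lt_trichotomy z.im 0 with h2 | h2 | h2
  · apply key (conj z) (by rwa [RCLike.norm_conj]) (by simpa using h2)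
    rw [ev_conj, hp, map_zero]
  · have h3 : z = ((z.re : ℝ) : ℂ) := by
      apply Complex.ext <;> simp [h2]
    have hre : z.re ∈ Icc (-1 : ℝ) 1 := by
      have := (Complex.abs_re_le_norm z).trans hz
      exact abs_le.1 this
    have h4 : p.eval z.re = 0 := by
      rw [h3, ev_real] at hp
      exact_mod_cast hp
    have h5 : p.eval 0 = 0 := by
      rw [← Polynomial.coeff_zero_eq_eval_zero, h0]
    have h6 := (strictMono_real h1 hTR).injOn hre (⟨by norm_num, by norm_num⟩ : (0:ℝ) ∈ Icc (-1:ℝ) 1)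
      (by rw [h4, h5])
    apply hz0
    rw [h3, h6, ofReal_zero]
  · exact key z hz h2 hp

/-- the quotient `dX/dχ` -/
noncomputable def qf (p : ℝ[X]) (z : ℂ) : ℂ :=
  ev (derivative p) z / ((1 - z ^ 2) * ev (divX p) z ^ 2)

/-- removing the poles -/
theorem exists_M (p : ℝ[X]) (a b : ℝ) (ha : (derivative p).eval 1 = 4 * a * (divX p).eval 1 ^ 2)
    (hb : (derivative p).eval (-1) = 4 * b * (divX p).eval (-1) ^ 2) :
    ∃ M : ℝ[X], derivative p - (C a * (1 + X) ^ 2 + C b * (1 - X) ^ 2) * divX p ^ 2 =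
      (1 - X ^ 2) * M := by
  set N : ℝ[X] := derivative p - (C a * (1 + X) ^ 2 + C b * (1 - X) ^ 2) * divX p ^ 2 with hN
  have r1 : N.IsRoot 1 := by
    rw [IsRoot.def, hN]
    simp only [eval_sub, eval_mul, eval_add, eval_pow, eval_C, eval_one, eval_X, ha]
    ring
  obtain ⟨N1, hN1⟩ := dvd_iff_isRoot.2 r1
  have r2 : N1.IsRoot (-1) := by
    have h2 : N.eval (-1) = 0 := by
      rw [hN]
      simp only [eval_sub, eval_mul, eval_add, eval_pow, eval_C, eval_one, eval_X, hb]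
      ring
    rw [hN1] at h2
    simp only [eval_mul, eval_sub, eval_X, eval_C] at h2
    rw [IsRoot.def]
    rcases mul_eq_zero.1 h2 with h3 | h3
    · norm_num at h3
    · exact h3
  obtain ⟨N2, hN2⟩ := dvd_iff_isRoot.2 r2
  refine ⟨-N2, ?_⟩
  rw [hN1, hN2]
  simp only [map_neg, map_one]
  ring

theorem re_moebius_circle {z : ℂ} (hz : ‖z‖ = 1) : ((1 + z) / (1 - z)).re = 0 := by
  have hn : z.re * z.re + z.im * z.im = 1 := by
    have : Complex.normSq z = 1 := by rw [Complex.normSq_eq_norm_sq, hz, one_pow]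
    rwa [Complex.normSq_apply] at this
  rw [Complex.div_re, ← add_div]
  simp only [add_re, one_re, sub_re, add_im, one_im, sub_im, zero_add, zero_sub]
  have : (1 + z.re) * (1 - z.re) + z.im * -z.im = 0 := by linarith
  rw [this, zero_div]

theorem re_moebius_ball {z : ℂ} (hz : ‖z‖ < 1) : 0 ≤ ((1 + z) / (1 - z)).re := by
  have hn : z.re * z.re + z.im * z.im < 1 := by
    have : Complex.normSq z < 1 := by rw [Complex.normSq_eq_norm_sq]; nlinarith [norm_nonneg z]
    rwa [Complex.normSq_apply] at this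
  rw [Complex.div_re, ← add_div]
  apply div_nonneg _ (Complex.normSq_nonneg _)
  simp only [add_re, one_re, sub_re, add_im, one_im, sub_im, zero_add, zero_sub]
  linarith

theorem norm_pt (t : ℝ) : ‖pt t‖ = 1 := by
  unfold pt
  exact Complex.norm_exp_ofReal_mul_I t

theorem pt_im (t : ℝ) : (pt t).im = Real.sin t := by
  unfold pt
  rw [Complex.exp_ofReal_mul_I_im]

theorem pt_re (t : ℝ) : (pt t).re = Real.cos t := by
  unfold pt
  rw [Complex.exp_ofReal_mul_I_re]

theorem hasDerivAt_pt (t : ℝ) : HasDerivAt pt (I * pt t) t := by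
  unfold pt
  have h3 : HasDerivAt (fun s : ℝ => (s : ℂ)) 1 t := Complex.ofRealCLM.hasDerivAt
  have h4 := (h3.mul_const I).cexp
  rw [one_mul, mul_comm] at h4
  exact h4

theorem one_sub_sq_pt (t : ℝ) : 1 - pt t ^ 2 = -2 * I * (Real.sin t : ℂ) * pt t := by
  have hc : Real.cos t ^ 2 + Real.sin t ^ 2 = 1 := Real.cos_sq_add_sin_sq t
  have e : pt t = (Real.cos t : ℂ) + (Real.sin t : ℂ) * I := by
    unfold pt
    rw [Complex.exp_mul_I, ofReal_cos, ofReal_sin]
  have hc' : (Real.cos t : ℂ) ^ 2 + (Real.sin t : ℂ) ^ 2 = 1 := by exact_mod_cast hc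
  rw [e]
  linear_combination (-1 : ℂ) * hc' + ((Real.sin t : ℂ) ^ 2) * Complex.I_sq

theorem ne_one_of_im {z : ℂ} (h : 0 < z.im) : 1 - z ≠ 0 := by
  intro h'
  have : z = 1 := (sub_eq_zero.1 h').symm
  rw [this] at h
  simp at h

theorem ne_neg_one_of_im {z : ℂ} (h : 0 < z.im) : 1 + z ≠ 0 := by
  intro h'
  have : z = -1 := by linear_combination h'
  rw [this] at h
  simp at h

/-- the boundary values of the real part of `qf` -/
theorem qf_circle (h0 : p.coeff 0 = 0) (hne : ∀ t ∈ Ioo (0 : ℝ) Real.pi, ev p (pt t) ≠ 0)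
    (hm : MonotoneOn (fun t => (-1 / ev p (pt t)).re) (Ioo (0 : ℝ) Real.pi)) {t : ℝ}
    (ht : t ∈ Ioo (0 : ℝ) Real.pi) : 0 ≤ (qf p (pt t)).re := by
  have hs : 0 < Real.sin t := Real.sin_pos_of_mem_Ioo ht
  have hp := hne t ht
  have hz0 : pt t ≠ 0 := by
    intro h
    have := norm_pt t
    rw [h, norm_zero] at this
    norm_num at this
  have hd : HasDerivAt (fun s : ℝ => -1 / ev p (pt s))
      (ev (derivative p) (pt t) * (I * pt t) / ev p (pt t) ^ 2) t := by
    have h2 := (hasDerivAt_ev p (pt t)).comp t (hasDerivAt_pt t)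
    have h3 := (hasDerivAt_const t (-1 : ℂ)).div h2 hp
    refine h3.congr_deriv ?_
    simp only [Function.comp_apply]
    ring
  have hd2 := Complex.reCLM.hasFDerivAt.comp_hasDerivAt t hd
  have hd3 : HasDerivAt (fun t => (-1 / ev p (pt t)).re)
      (ev (derivative p) (pt t) * (I * pt t) / ev p (pt t) ^ 2).re t := hd2
  have h4 : 0 ≤ (ev (derivative p) (pt t) * (I * pt t) / ev p (pt t) ^ 2).re := by
    have h5 := hm.derivWithin_nonneg (x := t)
    rwa [derivWithin_of_isOpen isOpen_Ioo ht, hd3.deriv] at h5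
  have e : qf p (pt t) = (ev (derivative p) (pt t) * (I * pt t) / ev p (pt t) ^ 2) /
      ((2 * Real.sin t : ℝ) : ℂ) := by
    unfold qf
    rw [one_sub_sq_pt, ev_eq h0]
    have h6 : ev (divX p) (pt t) ≠ 0 := by
      intro h
      exact hp (by rw [ev_eq h0, h, mul_zero])
    have h7 : (Real.sin t : ℂ) ≠ 0 := by exact_mod_cast hs.ne'
    push_cast
    have h8 : Complex.sin (t : ℂ) ≠ 0 := by
      rw [← Complex.ofReal_sin]; exact h7
    field_simp
    rw [Complex.I_sq]
    ring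
  rw [e, Complex.div_ofReal_re]
  exact div_nonneg h4 (by linarith)

include h0 h1 hTR in
theorem qf_re_nonneg (hne : ∀ t ∈ Ioo (0 : ℝ) Real.pi, ev p (pt t) ≠ 0)
    (hm : MonotoneOn (fun t => (-1 / ev p (pt t)).re) (Ioo (0 : ℝ) Real.pi)) {z : ℂ}
    (hz : z ∈ Metric.ball (0 : ℂ) 1) : 0 ≤ (qf p z).re := by
  have hD : ∀ z : ℂ, ‖z‖ ≤ 1 → ev (divX p) z ≠ 0 := fun z hz => divX_ne h0 h1 hTR hne hz
  have hD1 : (divX p).eval 1 ≠ 0 := by
    have := hD ((1 : ℝ) : ℂ) (by simp)
    rw [ev_real] at this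
    exact_mod_cast this
  have hD2 : (divX p).eval (-1) ≠ 0 := by
    have := hD ((-1 : ℝ) : ℂ) (by simp)
    rw [ev_real] at this
    exact_mod_cast this
  set a : ℝ := (derivative p).eval 1 / (4 * (divX p).eval 1 ^ 2) with ha
  set b : ℝ := (derivative p).eval (-1) / (4 * (divX p).eval (-1) ^ 2) with hb
  have ha0 : 0 ≤ a := div_nonneg (deriv_nonneg_Icc hTR ⟨by norm_num, le_rfl⟩) (by positivity)
  have hb0 : 0 ≤ b := div_nonneg (deriv_nonneg_Icc hTR ⟨le_rfl, by norm_num⟩) (by positivity)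
  obtain ⟨M, hM⟩ := exists_M p a b (by rw [ha]; field_simp) (by rw [hb]; field_simp)
  set qt : ℂ → ℂ := fun z => ev M z / ev (divX p) z ^ 2 with hqt
  have hqf : ∀ z : ℂ, ‖z‖ ≤ 1 → 1 - z ≠ 0 → 1 + z ≠ 0 →
      qf p z = qt z + (a : ℂ) * ((1 + z) / (1 - z)) + (b : ℂ) * ((1 + -z) / (1 - -z)) := by
    intro z hz hz1 hz2
    have hMz := congrArg (fun q => ev q z) hM
    simp only [ev_sub, ev_mul, ev_add, ev_pow, ev_C, ev_one, ev_X] at hMz
    have e1 : ev (derivative p) z = (1 - z ^ 2) * ev M z +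
        ((a : ℂ) * (1 + z) ^ 2 + (b : ℂ) * (1 - z) ^ 2) * ev (divX p) z ^ 2 := by
      linear_combination hMz
    have hDz := hD z hz
    have e2 : 1 - z ^ 2 = (1 - z) * (1 + z) := by ring
    simp only [qf, hqt]
    rw [e1, e2, sub_neg_eq_add, ← sub_eq_add_neg]
    field_simp
    ring
  have hqtd : ∀ z : ℂ, ‖z‖ ≤ 1 → DifferentiableAt ℂ qt z := by
    intro z hz
    exact (differentiable_ev M z).div ((differentiable_ev (divX p) z).pow 2)
      (pow_ne_zero 2 (hD z hz))
  have hup : ∀ z : ℂ, ‖z‖ = 1 → 0 < z.im → 0 ≤ (qt z).re := by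
    intro z hz him
    have h2 := hqf z hz.le (ne_one_of_im him) (ne_neg_one_of_im him)
    obtain ⟨t, ht, rfl⟩ := eq_pt hz him
    have h3 := qf_circle h0 hne hm ht
    rw [h2, add_re, add_re, re_ofReal_mul, re_ofReal_mul, re_moebius_circle hz,
      re_moebius_circle (by rwa [norm_neg]), mul_zero, mul_zero, add_zero, add_zero] at h3
    exact h3
  have hconj : ∀ z : ℂ, (qt (conj z)).re = (qt z).re := by
    intro z
    simp only [hqt]
    rw [ev_conj, ev_conj, ← map_pow, ← map_div₀, Complex.conj_re]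
  have hreal : 0 ≤ (qt 1).re ∧ 0 ≤ (qt (-1)).re := by
    have hc : Continuous (fun t : ℝ => (qt (pt t)).re) := by
      rw [continuous_iff_continuousAt]
      intro t
      have h2 := (hqtd (pt t) (norm_pt t).le).continuousAt
      have h3 : ContinuousAt pt t := (hasDerivAt_pt t).continuousAt
      exact Complex.continuous_re.continuousAt.comp (h2.comp h3)
    have h2 : Icc (0 : ℝ) Real.pi ⊆ {t | 0 ≤ (qt (pt t)).re} := by
      rw [← closure_Ioo Real.pi_pos.ne]
      refine closure_minimal (fun t ht => ?_) (isClosed_le continuous_const hc)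
      exact hup (pt t) (norm_pt t) (by rw [pt_im]; exact Real.sin_pos_of_mem_Ioo ht)
    have h3 : 0 ≤ (qt (pt 0)).re := h2 ⟨le_rfl, Real.pi_pos.le⟩
    have h4 : 0 ≤ (qt (pt Real.pi)).re := h2 ⟨Real.pi_pos.le, le_rfl⟩
    have e3 : pt 0 = 1 := by unfold pt; simp
    have e4 : pt Real.pi = -1 := by unfold pt; exact Complex.exp_pi_mul_I
    rw [e3] at h3
    rw [e4] at h4
    exact ⟨h3, h4⟩
  have hall : ∀ z : ℂ, ‖z‖ = 1 → 0 ≤ (qt z).re := by
    intro z hz
    rcases lt_trichotomy z.im 0 with h2 | h2 | h2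
    · rw [← hconj]
      exact hup _ (by rwa [RCLike.norm_conj]) (by simpa using h2)
    · have h3 : z = ((z.re : ℝ) : ℂ) := by
        apply Complex.ext <;> simp [h2]
      rw [h3, Complex.norm_real, Real.norm_eq_abs] at hz
      rcases eq_or_eq_neg_of_abs_eq hz with h4 | h4
      · rw [h3, h4, ofReal_one]; exact hreal.1
      · rw [h3, h4, ofReal_neg, ofReal_one]; exact hreal.2
    · exact hup z hz h2
  have hn : ∀ z, ‖Complex.exp (-qt z)‖ = Real.exp (-(qt z).re) := by
    intro z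
    rw [Complex.norm_exp, neg_re]
  have hqt0 : ∀ z ∈ Metric.ball (0 : ℂ) 1, 0 ≤ (qt z).re := by
    intro z hz
    have hdc : DiffContOnCl ℂ (fun z => Complex.exp (-qt z)) (Metric.ball (0 : ℂ) 1) := by
      apply DifferentiableOn.diffContOnCl
      rw [closure_ball (0 : ℂ) one_ne_zero]
      intro w hw
      exact ((hqtd w (mem_closedBall_zero_iff.1 hw)).neg.cexp).differentiableWithinAt
    have := Complex.norm_le_of_forall_mem_frontier_norm_le (C := 1) Metric.isBounded_ball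
      hdc (fun w hw => ?_) (subset_closure hz)
    · rw [hn, Real.exp_le_one_iff] at this
      linarith
    · rw [frontier_ball (0 : ℂ) one_ne_zero, mem_sphere_zero_iff_norm] at hw
      rw [hn, Real.exp_le_one_iff]
      linarith [hall w hw]
  have hz' : ‖z‖ < 1 := mem_ball_zero_iff.1 hz
  have hz1 : 1 - z ≠ 0 := by
    intro h
    have : z = 1 := (sub_eq_zero.1 h).symm
    rw [this] at hz'; simp at hz'
  have hz2 : 1 + z ≠ 0 := by
    intro h
    have : z = -1 := by linear_combination h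
    rw [this] at hz'; simp at hz'
  rw [hqf z hz'.le hz1 hz2, add_re, add_re, re_ofReal_mul, re_ofReal_mul]
  have e1 := re_moebius_ball hz'
  have e2 := re_moebius_ball (z := -z) (by rwa [norm_neg])
  have e3 := hqt0 z hz
  have := mul_nonneg ha0 e1
  have := mul_nonneg hb0 e2
  linarith

include h0 h1 hTR in
theorem qf_re_pos (hne : ∀ t ∈ Ioo (0 : ℝ) Real.pi, ev p (pt t) ≠ 0)
    (hm : MonotoneOn (fun t => (-1 / ev p (pt t)).re) (Ioo (0 : ℝ) Real.pi)) {z : ℂ}
    (hz : z ∈ Metric.ball (0 : ℂ) 1) : 0 < (qf p z).re := by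
  have hd : DifferentiableOn ℂ (qf p) (Metric.ball (0 : ℂ) 1) := by
    intro w hw
    have hw' : ‖w‖ < 1 := mem_ball_zero_iff.1 hw
    have hD := divX_ne h0 h1 hTR hne hw'.le
    have h2 : 1 - w ^ 2 ≠ 0 := by
      intro h
      have h3 : w ^ 2 = 1 := (sub_eq_zero.1 h).symm
      have h4 : ‖w‖ ^ 2 = 1 := by rw [← norm_pow, h3, norm_one]
      nlinarith [norm_nonneg w]
    have h5 : DifferentiableAt ℂ (fun z : ℂ => (1 - z ^ 2) * ev (divX p) z ^ 2) w :=
      ((differentiableAt_const 1).sub (differentiableAt_id.pow 2)).mul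
        ((differentiable_ev _ w).pow 2)
    exact ((differentiable_ev _ w).div h5 (mul_ne_zero h2 (pow_ne_zero 2 hD))).differentiableWithinAt
  have ha := hd.analyticOnNhd Metric.isOpen_ball
  rcases ha.is_constant_or_isOpen (convex_ball (0 : ℂ) 1).isPreconnected with ⟨w, hw⟩ | ho
  · have h2 := hw 0 (Metric.mem_ball_self one_pos)
    have h3 : qf p 0 = 1 := by
      unfold qf
      rw [ev_deriv_zero h1, ev_divX_zero h1]
      simp
    rw [h3] at h2
    rw [hw z hz, ← h2]
    simp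
  · have h2 := ho _ subset_rfl Metric.isOpen_ball
    have h3 : qf p '' Metric.ball (0 : ℂ) 1 ⊆ {z | 0 ≤ z.re} := by
      rintro _ ⟨u, hu, rfl⟩
      exact qf_re_nonneg h0 h1 hTR hne hm hu
    have h4 := interior_maximal h3 h2
    rw [Complex.interior_setOfPred_le_re] at h4
    exact h4 ⟨z, hz, rfl⟩

include h0 h1 hTR in
theorem inj_Dp (hne : ∀ t ∈ Ioo (0 : ℝ) Real.pi, ev p (pt t) ≠ 0)
    (hm : MonotoneOn (fun t => (-1 / ev p (pt t)).re) (Ioo (0 : ℝ) Real.pi)) :
    InjOn (ev p) Dp := by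
  intro z1 hz1 z2 hz2 heq
  have b1 : ‖z1‖ < 1 := mem_ball_zero_iff.1 hz1.1
  have b2 : ‖z2‖ < 1 := mem_ball_zero_iff.1 hz2.1
  have i1 : 0 < z1.im := hz1.2
  have i2 : 0 < z2.im := hz2.2
  have n1 : z1 ≠ 0 := by intro h; rw [h] at i1; simp at i1
  have n2 : z2 ≠ 0 := by intro h; rw [h] at i2; simp at i2
  set G : ℂ → ℂ := fun w => -(ev p (zz w))⁻¹ with hG
  have hGd : ∀ w : ℂ, 0 < w.im → HasDerivAt G (qf p (zz w)) w := by
    intro w hw
    have hzn := zz_norm hw
    have hz0 := zz_ne hw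
    have hD := divX_ne h0 h1 hTR hne hzn.le
    have h2 : 1 - zz w ^ 2 ≠ 0 := by
      intro h
      have h3 : zz w ^ 2 = 1 := (sub_eq_zero.1 h).symm
      have h4 : ‖zz w‖ ^ 2 = 1 := by rw [← norm_pow, h3, norm_one]
      nlinarith [norm_nonneg (zz w)]
    have hp : ev p (zz w) ≠ 0 := by
      rw [ev_eq h0]
      exact mul_ne_zero hz0 hD
    have h3 := ((hasDerivAt_ev p (zz w)).comp w (deriv_zz hw h2)).inv hp
    refine (h3.neg).congr_deriv ?_
    simp only [Function.comp_apply, qf]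
    rw [ev_eq h0]
    field_simp
  by_contra hne'
  have hw1 := chi_im b1 i1
  have hw2 := chi_im b2 i2
  have hwne : -(z1 + z1⁻¹) ≠ -(z2 + z2⁻¹) := by
    intro h
    apply hne'
    rw [← zz_inv b1 n1, ← zz_inv b2 n2, h]
  apply noshiro hGd (fun w hw => qf_re_pos h0 h1 hTR hne hm (mem_ball_zero_iff.2 (zz_norm hw)))
    hw1 hw2 hwne
  simp only [hG]
  rw [zz_inv b1 n1, zz_inv b2 n2, heq]

end

theorem m10 : TargetU3 := by
  intro p h0 h1 hTR hne hm z1 hz1 z2 hz2 heq
  have hDp := inj_Dp h0 h1 hTR hne hm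
  have b1 : ‖z1‖ < 1 := mem_ball_zero_iff.1 hz1
  have b2 : ‖z2‖ < 1 := mem_ball_zero_iff.1 hz2
  have pos : ∀ z : ℂ, ‖z‖ < 1 → 0 < z.im → 0 < (ev p z).im := fun z hz him =>
    im_pos h1 hTR ⟨mem_ball_zero_iff.2 hz, him⟩
  have neg : ∀ z : ℂ, ‖z‖ < 1 → z.im < 0 → (ev p z).im < 0 := by
    intro z hz him
    have h2 := pos (conj z) (by rwa [RCLike.norm_conj]) (by simpa using him)
    rw [ev_conj, conj_im] at h2
    linarith
  have zer : ∀ z : ℂ, z.im = 0 → (ev p z).im = 0 := by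
    intro z hz
    have h3 : z = ((z.re : ℝ) : ℂ) := by
      apply Complex.ext <;> simp [hz]
    rw [h3, ev_real, ofReal_im]
  rcases lt_trichotomy z1.im 0 with h2 | h2 | h2
  · have h3 : z2.im < 0 := by
      by_contra h
      rw [not_lt] at h
      have e1 := neg z1 b1 h2
      rw [heq] at e1
      rcases h.eq_or_lt with h4 | h4
      · rw [zer z2 h4.symm] at e1; exact lt_irrefl _ e1
      · exact lt_asymm e1 (pos z2 b2 h4)
    have e2 : conj z1 = conj z2 := by
      apply hDp ⟨mem_ball_zero_iff.2 (by rwa [RCLike.norm_conj]), ?_⟩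
        ⟨mem_ball_zero_iff.2 (by rwa [RCLike.norm_conj]), ?_⟩
      · rw [ev_conj, ev_conj, heq]
      · show 0 < (conj z1).im
        rw [conj_im]; linarith
      · show 0 < (conj z2).im
        rw [conj_im]; linarith
    exact (starRingEnd ℂ).injective e2
  · have h3 : z2.im = 0 := by
      rcases lt_trichotomy z2.im 0 with h4 | h4 | h4
      · have := neg z2 b2 h4
        rw [← heq, zer z1 h2] at this
        exact absurd this (lt_irrefl _)
      · exact h4
      · have := pos z2 b2 h4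
        rw [← heq, zer z1 h2] at this
        exact absurd this (lt_irrefl _)
    have e1 : z1 = ((z1.re : ℝ) : ℂ) := by apply Complex.ext <;> simp [h2]
    have e2 : z2 = ((z2.re : ℝ) : ℂ) := by apply Complex.ext <;> simp [h3]
    have r1 : z1.re ∈ Icc (-1 : ℝ) 1 := abs_le.1 ((Complex.abs_re_le_norm z1).trans b1.le)
    have r2 : z2.re ∈ Icc (-1 : ℝ) 1 := abs_le.1 ((Complex.abs_re_le_norm z2).trans b2.le)
    have e3 : p.eval z1.re = p.eval z2.re := by
      rw [e1, e2, ev_real, ev_real] at heq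
      exact_mod_cast heq
    have e4 := (strictMono_real h1 hTR).injOn r1 r2 e3
    rw [e1, e2, e4]
  · have h3 : 0 < z2.im := by
      by_contra h
      rw [not_lt] at h
      have e1 := pos z1 b1 h2
      rw [heq] at e1
      rcases h.eq_or_lt with h4 | h4
      · rw [zer z2 h4] at e1; exact lt_irrefl _ e1
      · exact lt_asymm e1 (neg z2 b2 h4)
    exact hDp ⟨hz1, h2⟩ ⟨hz2, h3⟩ heq

end Pool.Agent.H14.KP
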